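import Pool.Agent.H42.Rnd2

open Cardinal Pool.Agent.H42.ZF Pool.Agent.H42.PolD

/-- After adding more than `d` random reals the polarized relation at `d` always fails. -/
theorem Pool.Agent.Results.MP_95a70f_lc.Full.result (L : Type) (hL : dNum < #L)
    (U : Ult (Rand (coin L))) :
    ZFC (E U) ∧ ∀ w D, IsOmega (E U) w → MinDom (E U) D w → ¬PolM (E U) D w :=
  ⟨M_zfc U, not_pol hL.le U⟩
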